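import Mathlib
import Pool.Agent.V5helper95.KV.Crit

set_option autoImplicit false

/-!
# Raising multiplicities: the number of conditions
-/

namespace Pool.Agent.V5helper95.UB

open MvPolynomial Pool.Agent.H248R5

/-- The exponent `(a, m - a)`. -/
noncomputable def mon (m a : ℕ) : Fin 2 →₀ ℕ := Finsupp.equivFunOnFinite.symm ![a, m - a]

theorem mon_eq {α : Fin 2 →₀ ℕ} : mon α.degree (α 0) = α := by
  refine Finsupp.ext fun i => ?_
  unfold mon
  rw [Finsupp.degree_eq_sum, Fin.sum_univ_two]
  fin_cases i
  · simp
  · simp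

theorem card_aux (a : ℕ) : ∀ k : ℕ, ∑ m : Fin k, (a + (m : ℕ) + 1) = (a + k + 1).choose 2 - (a + 1).choose 2 := by
  intro k
  have h : ∀ k : ℕ, ∑ m : Fin k, (a + (m : ℕ) + 1) + (a + 1).choose 2 = (a + k + 1).choose 2 := by
    intro k
    induction k with
    | zero => simp
    | succ k ih =>
      rw [Fin.sum_univ_castSucc]
      simp only [Fin.val_castSucc, Fin.val_last]
      have h2 : (a + (k + 1) + 1).choose 2 = (a + k + 1).choose 2 + (a + k + 1) := by
        rw [show a + (k + 1) + 1 = (a + k + 1) + 1 by ring, Nat.choose_succ_succ' (a + k + 1) 1,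
          Nat.choose_one_right]
        ring
      omega
  have := h k
  omega

/-- Raising the multiplicities from `w` to `u` imposes at most `∑ (u i + 1).choose 2 - (w i + 1).choose 2`
conditions. -/
theorem rel_le {K : Type} [Field K] {n : ℕ} {w u : Fin n → ℕ} (hwu : ∀ i, w i ≤ u i)
    (P : Fin n → Fin 2 → K) (d : ℕ) :
    Module.finrank K ↥(forms w P d) ≤ Module.finrank K ↥(forms u P d) +
      ∑ i, ((u i + 1).choose 2 - (w i + 1).choose 2) := by
  classical
  have hfin : Module.Finite K ↥(homogeneousSubmodule (Fin 3) K d) :=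
    Module.Finite.iff_fg.2 (homogeneousSubmodule_fg _ _ d)
  have hle : ∀ v : Fin n → ℕ, forms v P d ≤ homogeneousSubmodule (Fin 3) K d := fun v G hG => by
    rw [mem_forms] at hG
    exact hG.1
  have hf : ∀ v : Fin n → ℕ, Module.Finite K ↥(forms v P d) := fun v =>
    Module.Finite.of_injective (Submodule.inclusion (hle v)) (Submodule.inclusion_injective _)
  have := hf w
  have := hf u
  let φ : ↥(forms w P d) →ₗ[K] ((Σ i : Fin n, Σ m : Fin (u i - w i), Fin (w i + (m : ℕ) + 1)) → K) :=
    { toFun := fun G x => coeff (mon (w x.1 + (x.2.1 : ℕ)) (x.2.2 : ℕ)) (tau (P x.1) G.1)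
      map_add' := fun a b => by
        funext x
        simp
      map_smul' := fun c a => by
        funext x
        simp }
  have h1 := LinearMap.finrank_range_add_finrank_ker φ
  have h2 : Module.finrank K ↥(LinearMap.range φ) ≤
      ∑ i, ((u i + 1).choose 2 - (w i + 1).choose 2) := by
    refine (Submodule.finrank_le _).trans ?_
    rw [Module.finrank_fintype_fun_eq_card, Fintype.card_sigma]
    refine Finset.sum_le_sum fun i _ => ?_
    rw [Fintype.card_sigma]
    simp only [Fintype.card_fin]
    rw [card_aux (w i) (u i - w i)]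
    have := hwu i
    rw [show w i + (u i - w i) + 1 = u i + 1 by omega]
  have h3 : Module.finrank K ↥(LinearMap.ker φ) ≤ Module.finrank K ↥(forms u P d) := by
    have h4 : (LinearMap.ker φ).map (forms w P d).subtype ≤ forms u P d := by
      rintro _ ⟨⟨G, hG⟩, hG0, rfl⟩
      change G ∈ forms u P d
      have hG' := hG
      rw [mem_forms] at hG' ⊢
      refine ⟨hG'.1, fun i => ?_⟩
      rw [mem_pow_idealOfVars_iff']
      intro α hα
      by_cases hlt : α.degree < w i
      · exact (mem_pow_idealOfVars_iff' _ _).1 (hG'.2 i) α hlt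
      · have h5 : φ ⟨G, hG⟩ = 0 := hG0
        have h6 := congrFun h5 ⟨i, ⟨α.degree - w i, by omega⟩, ⟨α 0, by
          have h7 : α.degree = α 0 + α 1 := by
            rw [Finsupp.degree_eq_sum, Fin.sum_univ_two]
          simp only
          omega⟩⟩
        change coeff (mon (w i + (α.degree - w i)) (α 0)) (tau (P i) G) = 0 at h6
        rw [show w i + (α.degree - w i) = α.degree by omega, mon_eq] at h6
        exact h6
    have h5 : Module.finrank K ↥((LinearMap.ker φ).map (forms w P d).subtype) =
        Module.finrank K ↥(LinearMap.ker φ) := by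
      exact (LinearEquiv.finrank_eq (Submodule.equivSubtypeMap _ _)).symm
    rw [← h5]
    exact Submodule.finrank_mono h4
  omega

end Pool.Agent.V5helper95.UB
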