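import Mathlib
import Pool.Agent.V5helper95.UB.Rel
import Pool.Agent.V5helper95.KV.Pos
import Pool.Agent.TH442.NF.Std

set_option autoImplicit false

/-!
# Upper bounds for the dimensions of all systems of bounded self-intersection
-/

namespace Pool.Agent.V5helper95.UB

open MvPolynomial Pool.Agent.H248R5 Pool.Agent.V5helper95.KV

theorem vals_append {n k : ℕ} (w : Fin n → ℕ) (j : ℕ) :
    vals 1 (Fin.append w (fun _ : Fin k => j)) ≤ vals 1 w + 1 := by
  classical
  unfold vals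
  have h : ((Finset.univ.image (Fin.append w (fun _ : Fin k => j))).filter (1 ≤ ·)) ⊆
      insert j ((Finset.univ.image w).filter (1 ≤ ·)) := by
    intro x hx
    rw [Finset.mem_filter, Finset.mem_image] at hx
    obtain ⟨⟨i, -, hi⟩, hx1⟩ := hx
    rw [Finset.mem_insert, Finset.mem_filter, Finset.mem_image]
    revert hi
    refine Fin.addCases (fun a => ?_) (fun a => ?_) i
    · intro hi
      rw [Fin.append_left] at hi
      exact Or.inr ⟨⟨a, Finset.mem_univ _, hi⟩, hx1⟩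
    · intro hi
      rw [Fin.append_right] at hi
      exact Or.inl hi.symm
  exact (Finset.card_le_card h).trans (Finset.card_insert_le _ _)

theorem sum_append {n k : ℕ} (f : ℕ → ℕ) (w : Fin n → ℕ) (j : ℕ) :
    ∑ i, f (Fin.append w (fun _ : Fin k => j) i) = ∑ i, f (w i) + k * f j := by
  rw [Fin.sum_univ_add]
  simp [Fin.append_left, Fin.append_right]

theorem forms_append {K : Type} [Field K] {n k : ℕ} (w : Fin n → ℕ) (P : Fin n → Fin 2 → K)
    (q : Fin k → Fin 2 → K) (d : ℕ) :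
    forms (Fin.append w (fun _ : Fin k => 0)) (Fin.append P q) d = forms w P d := by
  ext G
  rw [mem_forms, mem_forms]
  constructor
  · rintro ⟨h1, h2⟩
    refine ⟨h1, fun i => ?_⟩
    have := h2 (Fin.castAdd k i)
    rwa [Fin.append_left, Fin.append_left] at this
  · rintro ⟨h1, h2⟩
    refine ⟨h1, fun i => ?_⟩
    refine Fin.addCases (fun a => ?_) (fun a => ?_) i
    · rw [Fin.append_left, Fin.append_left]
      exact h2 a
    · rw [Fin.append_right, Fin.append_right, pow_zero, Ideal.one_eq_top]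
      exact Submodule.mem_top

/-- Forgetting points. -/
theorem forget {n k : ℕ} {p : (Fin (n + k) → Fin 2 → ℂ) → Prop}
    (h : ∃ F : MvPolynomial (Fin (n + k) × Fin 2) ℂ, F ≠ 0 ∧ ∀ P : Fin (n + k) → Fin 2 → ℂ,
      eval (fun ij : Fin (n + k) × Fin 2 => P ij.1 ij.2) F ≠ 0 → p P) :
    ∃ F : MvPolynomial (Fin n × Fin 2) ℂ, F ≠ 0 ∧ ∀ P : Fin n → Fin 2 → ℂ,
      eval (fun ij : Fin n × Fin 2 => P ij.1 ij.2) F ≠ 0 →
        ∃ q : Fin k → Fin 2 → ℂ, p (Fin.append P q) := by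
  obtain ⟨F, hF, hF'⟩ := h
  obtain ⟨x, hx⟩ : ∃ x : Fin (n + k) × Fin 2 → ℂ, eval x F ≠ 0 := by
    by_contra hcon
    push Not at hcon
    exact hF (MvPolynomial.funext fun x => by rw [hcon x, map_zero])
  let s : Fin (n + k) × Fin 2 → MvPolynomial (Fin n × Fin 2) ℂ := fun ij =>
    Fin.addCases (motive := fun _ => MvPolynomial (Fin n × Fin 2) ℂ)
      (fun a => X (a, ij.2)) (fun b => C (x (Fin.natAdd n b, ij.2))) ij.1
  have key : ∀ P : Fin n → Fin 2 → ℂ,
      eval (fun ij : Fin n × Fin 2 => P ij.1 ij.2) (aeval s F) =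
        eval (fun ij : Fin (n + k) × Fin 2 =>
          (Fin.append P (fun b c => x (Fin.natAdd n b, c)) : Fin (n + k) → Fin 2 → ℂ) ij.1 ij.2) F := by
    intro P
    rw [← MvPolynomial.coe_aeval_eq_eval, ← MvPolynomial.coe_aeval_eq_eval]
    change (aeval (fun ij : Fin n × Fin 2 => P ij.1 ij.2)) ((aeval s) F) = _
    rw [MvPolynomial.comp_aeval_apply]
    change (aeval _) F = (aeval _) F
    congr 2
    funext ij
    obtain ⟨i, c⟩ := ij
    refine Fin.addCases (fun a => ?_) (fun a => ?_) i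
    · simp [s, Fin.append_left]
    · simp [s, Fin.append_right]
  refine ⟨aeval s F, ?_, fun P hP => ⟨fun b c => x (Fin.natAdd n b, c),
    hF' (Fin.append P (fun b c => x (Fin.natAdd n b, c))) ?_⟩⟩
  · intro h0
    have h1 := key (fun i c => x (Fin.castAdd k i, c))
    rw [h0, map_zero] at h1
    apply hx
    rw [h1]
    congr 1
    congr 1
    funext ij
    obtain ⟨i, c⟩ := ij
    refine Fin.addCases (fun a => ?_) (fun a => ?_) i
    · simp [Fin.append_left]
    · simp [Fin.append_right]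
  · rwa [← key P]

/-- Emptiness for the class with more points gives a bound for the dimension. -/
theorem neg_exp' {m d : ℕ} {u : Fin m → ℕ} (hm : 4 ≤ m) (h : Negative d u) {K : Type} [Field K]
    [CharZero K] {P : Fin m → Fin 2 → K}
    (hP : AlgebraicIndependent ℚ (fun ij : Fin m × Fin 2 => P ij.1 ij.2)) :
    Pool.Agent.H932R3.ExpDim K u P d := by
  obtain ⟨r, rfl⟩ : ∃ r, m = r + 4 := ⟨m - 4, by omega⟩
  exact neg_exp h hP

theorem pos_exp' {m d : ℕ} {u : Fin m → ℕ} (hm : 4 ≤ m) (h : Positive d u) {K : Type} [Field K]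
    [CharZero K] {P : Fin m → Fin 2 → K}
    (hP : AlgebraicIndependent ℚ (fun ij : Fin m × Fin 2 => P ij.1 ij.2)) :
    Pool.Agent.H932R3.ExpDim K u P d := by
  obtain ⟨r, rfl⟩ : ∃ r, m = r + 4 := ⟨m - 4, by omega⟩
  exact pos_exp h hP

theorem to_cc {n d : ℕ} {w : Fin n → ℕ} (h : ∀ {K : Type} [Field K] [CharZero K]
    {P : Fin n → Fin 2 → K},
    AlgebraicIndependent ℚ (fun ij : Fin n × Fin 2 => P ij.1 ij.2) →
    Pool.Agent.H932R3.ExpDim K w P d) :
    ∃ F : MvPolynomial (Fin n × Fin 2) ℂ, F ≠ 0 ∧ ∀ P : Fin n → Fin 2 → ℂ,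
      eval (fun ij : Fin n × Fin 2 => P ij.1 ij.2) F ≠ 0 →
        Module.finrank ℂ ↥(forms w P d) = (d + 2).choose 2 - ∑ i, (w i + 1).choose 2 := by
  obtain ⟨F, hF, hF'⟩ := Pool.Agent.TH442.NF.to_open (d := d) (w := w) fun {_ _ _ P} hP => h hP
  refine ⟨F.map (algebraMap ℚ ℂ), Pool.Agent.H932R3.map_ne_zero_of hF, fun P hP => ?_⟩
  rw [MvPolynomial.eval_map] at hP
  exact hF' (L := ℂ) P hP

theorem neg_bound {n k j d : ℕ} {w : Fin n → ℕ} (hn : 4 ≤ n)
    (h : Negative d (Fin.append w (fun _ : Fin k => j)))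
    (hz : (d + 2).choose 2 ≤ ∑ i, (Fin.append w (fun _ : Fin k => j) i + 1).choose 2) :
    ∃ F : MvPolynomial (Fin n × Fin 2) ℂ, F ≠ 0 ∧ ∀ P : Fin n → Fin 2 → ℂ,
      eval (fun ij : Fin n × Fin 2 => P ij.1 ij.2) F ≠ 0 →
        Module.finrank ℂ ↥(forms w P d) ≤ k * (j + 1).choose 2 := by
  obtain ⟨F, hF, hF'⟩ := forget (to_cc (w := Fin.append w (fun _ : Fin k => j)) (d := d)
    fun {K _ _ P} hP => neg_exp' (by omega) h (K := K) (P := P) hP)
  refine ⟨F, hF, fun P hP => ?_⟩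
  obtain ⟨q, hq⟩ := hF' P hP
  rw [Nat.sub_eq_zero_of_le hz] at hq
  have h1 := rel_le (w := Fin.append w (fun _ : Fin k => 0)) (u := Fin.append w (fun _ : Fin k => j))
    (fun i => by
      refine Fin.addCases (fun a => ?_) (fun a => ?_) i
      · rw [Fin.append_left, Fin.append_left]
      · rw [Fin.append_right, Fin.append_right]
        exact Nat.zero_le _) (Fin.append P q) d
  rw [forms_append, hq, zero_add, Fin.sum_univ_add] at h1
  simpa [Fin.append_left, Fin.append_right] using h1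

theorem num {m M d : ℕ} {u : Fin m → ℕ} (hM : ∀ i, u i ≤ M) (h144 : 144 * M ^ 2 ≤ ∑ i, u i ^ 2)
    (hd : d ^ 2 < ∑ i, u i ^ 2) : (d + 2).choose 2 ≤ ∑ i, (u i + 1).choose 2 := by
  obtain ⟨S, hS⟩ : ∃ S : ℕ, S = ∑ i, u i ^ 2 := ⟨_, rfl⟩
  obtain ⟨A, hA⟩ : ∃ A : ℕ, A = ∑ i, u i := ⟨_, rfl⟩
  have hSA : S ≤ M * A := by
    rw [hS, hA, Finset.mul_sum]
    exact Finset.sum_le_sum fun i _ => by
      have := hM i
      nlinarith
  rw [← hS] at h144 hd
  have hM0 : 0 < M := by
    rcases Nat.eq_zero_or_pos M with h | h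
    · subst h
      omega
    · exact h
  have h1 : 144 * S ≤ A ^ 2 := by
    have h2 : M ^ 2 * (144 * S) ≤ M ^ 2 * A ^ 2 := by
      calc M ^ 2 * (144 * S) = (144 * M ^ 2) * S := by ring
        _ ≤ S * S := Nat.mul_le_mul_right _ h144
        _ ≤ (M * A) * (M * A) := Nat.mul_le_mul hSA hSA
        _ = M ^ 2 * A ^ 2 := by ring
    exact Nat.le_of_mul_le_mul_left h2 (by positivity)
  have h3 : 12 * d < A := by
    have h4 : (12 * d) ^ 2 < A ^ 2 := by
      calc (12 * d) ^ 2 = 144 * d ^ 2 := by ring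
        _ < 144 * S := by omega
        _ ≤ A ^ 2 := h1
    exact lt_of_pow_lt_pow_left₀ 2 (Nat.zero_le _) h4
  have h5 : ∀ a : ℕ, 2 * (a + 1).choose 2 = (a + 1) * a := fun a => by
    have := Nat.triangle_succ a
    rw [Nat.choose_two_right, Nat.add_sub_cancel]
    exact Nat.mul_div_cancel' (by
      have := Nat.even_mul_succ_self a
      rw [mul_comm]
      exact this.two_dvd)
  have h6 : 2 * ∑ i, (u i + 1).choose 2 = S + A := by
    rw [Finset.mul_sum, hS, hA, ← Finset.sum_add_distrib]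
    exact Finset.sum_congr rfl fun i _ => by
      rw [h5]
      ring
  have h7 := h5 (d + 1)
  have h8 : (d + 1 + 1) * (d + 1) = d ^ 2 + 3 * d + 2 := by ring
  have h9 : (d + 1 + 1).choose 2 = (d + 2).choose 2 := rfl
  omega

end Pool.Agent.V5helper95.UB
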