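import Mathlib
import Pool.Agent.V5helper95.UB.Main

set_option autoImplicit false

/-!
# The two bounds
-/

namespace Pool.Agent.V5helper95.UB

open MvPolynomial Pool.Agent.H248R5 Pool.Agent.V5helper95.KV

theorem two_ch (a : ℕ) : 2 * (a + 1).choose 2 = (a + 1) * a := by
  rw [Nat.choose_two_right, Nat.add_sub_cancel]
  exact Nat.mul_div_cancel' (by
    have := Nat.even_mul_succ_self a
    rw [mul_comm]
    exact this.two_dvd)

theorem mono_deg {n d : ℕ} (w : Fin n → ℕ) (P : Fin n → Fin 2 → ℂ) :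
    Module.finrank ℂ ↥(forms w P d) ≤ Module.finrank ℂ ↥(forms w P (d + 1)) := by
  have hfin : ∀ d, Module.Finite ℂ ↥(forms w P d) := fun d => by
    have : Module.Finite ℂ ↥(homogeneousSubmodule (Fin 3) ℂ d) :=
      Module.Finite.iff_fg.2 (homogeneousSubmodule_fg _ _ d)
    exact Module.Finite.of_injective (Submodule.inclusion (inf_le_left)) (Submodule.inclusion_injective _)
  have := hfin (d + 1)
  let φ : ↥(forms w P d) →ₗ[ℂ] ↥(forms w P (d + 1)) :=
    LinearMap.restrict (LinearMap.mulLeft ℂ (X 2 : MvPolynomial (Fin 3) ℂ)) (fun G hG => by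
      rw [mem_forms] at hG ⊢
      rw [LinearMap.mulLeft_apply]
      refine ⟨?_, fun i => ?_⟩
      · have := (isHomogeneous_X ℂ (2 : Fin 3)).mul hG.1
        rwa [add_comm] at this
      · rw [map_mul, tau_X2, one_mul]
        exact hG.2 i)
  refine LinearMap.finrank_le_finrank_of_injective (f := φ) fun a b hab => ?_
  have h1 : (X 2 : MvPolynomial (Fin 3) ℂ) * a.1 = X 2 * b.1 := congrArg Subtype.val hab
  exact Subtype.ext (mul_left_cancel₀ (X_ne_zero 2) h1)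

theorem mono_deg' {n d e : ℕ} (h : d ≤ e) (w : Fin n → ℕ) (P : Fin n → Fin 2 → ℂ) :
    Module.finrank ℂ ↥(forms w P d) ≤ Module.finrank ℂ ↥(forms w P e) := by
  induction h with
  | refl => exact le_rfl
  | step _ ih => exact ih.trans (mono_deg w P)

/-- The bound below the adjoint window. -/
theorem pos_case {n M d : ℕ} {w : Fin n → ℕ} (hn : 4 ≤ n) (hM0 : 0 < M) (hM : ∀ i, up w i ≤ M)
    (h144 : 144 * M ^ 2 ≤ ∑ i, up w i ^ 2)
    (hv : (16 * vals 2 w + 8) * M ^ 2 ≤ ∑ i, up w i ^ 2) (hd : (d + 3) ^ 2 ≤ ∑ i, up w i ^ 2) :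
    ∃ F : MvPolynomial (Fin n × Fin 2) ℂ, F ≠ 0 ∧ ∀ P : Fin n → Fin 2 → ℂ,
      eval (fun ij : Fin n × Fin 2 => P ij.1 ij.2) F ≠ 0 →
        2 * Module.finrank ℂ ↥(forms w P d) + Nat.sqrt (∑ i, up w i ^ 2) ≤ ∑ i, up w i := by
  obtain ⟨Q, hQ⟩ : ∃ Q : ℕ, Q = ∑ i, up w i ^ 2 := ⟨_, rfl⟩
  obtain ⟨U, hU⟩ : ∃ U : ℕ, U = ∑ i, up w i := ⟨_, rfl⟩
  rw [← hQ] at hd
  have hs : d + 3 ≤ Nat.sqrt Q := Nat.le_sqrt'.2 hd
  obtain ⟨e, he⟩ : ∃ e, Nat.sqrt Q = e + 2 := ⟨Nat.sqrt Q - 2, by omega⟩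
  have hlt : Q < (e + 3) ^ 2 := by
    have := Nat.lt_succ_sqrt' Q
    rw [he] at this
    exact this
  have hle : (e + 2) ^ 2 ≤ Q := by
    have := Nat.sqrt_le' Q
    rwa [he] at this
  have hp : Positive e w := crit_positive hM0 hM (by rw [← hQ]; exact hlt)
    (Or.inr (Or.inr ⟨h144, hv⟩))
  obtain ⟨F, hF, hF'⟩ := to_cc (w := w) (d := e) fun {K _ _ P} hP => pos_exp' hn hp (K := K) (P := P) hP
  refine ⟨F, hF, fun P hP => ?_⟩
  have h1 := hF' P hP
  have h2 := mono_deg' (show d ≤ e by omega) w P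
  rw [← hQ, ← hU, he]
  have h3 := two_ch (e + 1)
  have h4 : Q ≤ 2 * ∑ i, (w i + 1).choose 2 + U := by
    rw [Finset.mul_sum, hU, hQ, ← Finset.sum_add_distrib]
    refine Finset.sum_le_sum fun i _ => ?_
    rw [two_ch]
    unfold up
    split_ifs with h5
    · simp
    · apply le_of_eq
      ring
  have h5 : Q ≤ U ^ 2 := by
    rw [hQ, sq, hU, Finset.sum_mul]
    refine Finset.sum_le_sum fun i _ => ?_
    rw [sq]
    exact Nat.mul_le_mul_left _ (Finset.single_le_sum (f := fun i => up w i)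
      (fun _ _ => Nat.zero_le _) (Finset.mem_univ i))
  have h6 : e + 2 ≤ U := by
    have : (e + 2) ^ 2 ≤ U ^ 2 := hle.trans h5
    exact le_of_sq_le_sq' this
  have h7 : (e + 1 + 1) * (e + 1) + (e + 2) = (e + 2) ^ 2 := by ring
  have h8 : (e + 1 + 1).choose 2 = (e + 2).choose 2 := rfl
  omega
where
  le_of_sq_le_sq' {a b : ℕ} (h : a ^ 2 ≤ b ^ 2) : a ≤ b := (Nat.pow_le_pow_iff_left (by norm_num)).1 h

theorem neg_case {n k j M d : ℕ} {w : Fin n → ℕ} (hn : 4 ≤ n) (hM : ∀ i, w i ≤ M) (hj : j ≤ M)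
    (h144 : 144 * M ^ 2 ≤ ∑ i, w i ^ 2) (hv : (16 * vals 1 w + 24) * M ^ 2 ≤ ∑ i, w i ^ 2)
    (hd : d ^ 2 < ∑ i, w i ^ 2 + k * j ^ 2) :
    ∃ F : MvPolynomial (Fin n × Fin 2) ℂ, F ≠ 0 ∧ ∀ P : Fin n → Fin 2 → ℂ,
      eval (fun ij : Fin n × Fin 2 => P ij.1 ij.2) F ≠ 0 →
        2 * Module.finrank ℂ ↥(forms w P d) ≤ k * (j * (j + 1)) := by
  have hM0 : 0 < M := by
    rcases Nat.eq_zero_or_pos M with h | h
    · exfalso
      subst h
      have h1 : ∑ i, w i ^ 2 = 0 := Finset.sum_eq_zero fun i _ => by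
        have := hM i
        rw [show w i = 0 by omega]
        rfl
      have h2 : j = 0 := by omega
      rw [h1, h2] at hd
      simp at hd
    · exact h
  have hMu : ∀ i, Fin.append w (fun _ : Fin k => j) i ≤ M := fun i => by
    refine Fin.addCases (fun a => ?_) (fun a => ?_) i
    · rw [Fin.append_left]
      exact hM a
    · rw [Fin.append_right]
      exact hj
  have hsum := sum_append (k := k) (fun x => x ^ 2) w j
  have h1 : 144 * M ^ 2 ≤ ∑ i, Fin.append w (fun _ : Fin k => j) i ^ 2 := by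
    rw [hsum]
    omega
  have h2 : d ^ 2 < ∑ i, Fin.append w (fun _ : Fin k => j) i ^ 2 := by
    rw [hsum]
    exact hd
  have h3 : (16 * vals 1 (Fin.append w (fun _ : Fin k => j)) + 8) * M ^ 2 ≤
      ∑ i, Fin.append w (fun _ : Fin k => j) i ^ 2 := by
    rw [hsum]
    have h4 := vals_append (k := k) w j
    have h5 : (16 * vals 1 (Fin.append w (fun _ : Fin k => j)) + 8) * M ^ 2 ≤
        (16 * vals 1 w + 24) * M ^ 2 := Nat.mul_le_mul_right _ (by omega)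
    omega
  obtain ⟨F, hF, hF'⟩ := neg_bound hn (crit_negative hM0 hMu (Or.inr (Or.inr ⟨h1, h3, h2⟩)))
    (num hMu h1 h2)
  refine ⟨F, hF, fun P hP => ?_⟩
  have h4 := hF' P hP
  have h5 := two_ch j
  calc 2 * Module.finrank ℂ ↥(forms w P d) ≤ 2 * (k * (j + 1).choose 2) := Nat.mul_le_mul_left _ h4
    _ = k * (2 * (j + 1).choose 2) := by ring
    _ = k * (j * (j + 1)) := by rw [h5]; ring

end Pool.Agent.V5helper95.UB
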