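import Mathlib
import Pool.Agent.V5helper95.UB.Fin

set_option autoImplicit false

/-!
# The bound for arbitrary larger multiplicities
-/

namespace Pool.Agent.V5helper95.UB

open MvPolynomial Pool.Agent.H248R5 Pool.Agent.V5helper95.KV

theorem neg_gen {n k M d : ℕ} {w : Fin n → ℕ} {u : Fin (n + k) → ℕ} (hn : 4 ≤ n) (hM0 : 0 < M)
    (hwu : ∀ i, Fin.append w (fun _ : Fin k => 0) i ≤ u i) (hM : ∀ i, u i ≤ M)
    (h : (144 * M ^ 2 ≤ ∑ i, u i ^ 2 ∧ (16 * vals 1 u + 8) * M ^ 2 ≤ ∑ i, u i ^ 2 ∧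
      d ^ 2 < ∑ i, u i ^ 2) ∨ (576 * M ^ 2 ≤ ∑ i, u i ^ 2 ∧
      d ^ 2 * (∑ i, u i ^ 2) ^ 2 + 700 * M ^ 6 < (∑ i, u i ^ 2) ^ 3)) :
    ∃ F : MvPolynomial (Fin n × Fin 2) ℂ, F ≠ 0 ∧ ∀ P : Fin n → Fin 2 → ℂ,
      eval (fun ij : Fin n × Fin 2 => P ij.1 ij.2) F ≠ 0 →
        2 * Module.finrank ℂ ↥(forms w P d) + ∑ i, w i * (w i + 1) ≤ ∑ i, u i * (u i + 1) := by
  have hneg : Negative d u := crit_negative hM0 hM (by
    rcases h with ⟨a, b, c⟩ | ⟨a, b⟩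
    · exact Or.inr (Or.inr ⟨a, b, c⟩)
    · exact Or.inr (Or.inl ⟨a, b⟩))
  have hz : (d + 2).choose 2 ≤ ∑ i, (u i + 1).choose 2 := by
    rcases h with ⟨a, b, c⟩ | ⟨a, b⟩
    · exact num hM a c
    · refine num hM (le_trans (Nat.mul_le_mul_right _ (by norm_num)) a) ?_
      by_contra hcon
      push Not at hcon
      have h1 : (∑ i, u i ^ 2) ^ 3 ≤ d ^ 2 * (∑ i, u i ^ 2) ^ 2 := by
        calc (∑ i, u i ^ 2) ^ 3 = (∑ i, u i ^ 2) * (∑ i, u i ^ 2) ^ 2 := by ring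
          _ ≤ d ^ 2 * (∑ i, u i ^ 2) ^ 2 := Nat.mul_le_mul_right _ hcon
      omega
  obtain ⟨F, hF, hF'⟩ := forget (to_cc (w := u) (d := d)
    fun {K _ _ P} hP => neg_exp' (by omega) hneg (K := K) (P := P) hP)
  refine ⟨F, hF, fun P hP => ?_⟩
  obtain ⟨q, hq⟩ := hF' P hP
  rw [Nat.sub_eq_zero_of_le hz] at hq
  have h1 := rel_le hwu (Fin.append P q) d
  rw [forms_append, hq, zero_add] at h1
  have h2 : ∑ i, ((u i + 1).choose 2 - (Fin.append w (fun _ : Fin k => 0) i + 1).choose 2) +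
      ∑ i, (Fin.append w (fun _ : Fin k => 0) i + 1).choose 2 = ∑ i, (u i + 1).choose 2 := by
    rw [← Finset.sum_add_distrib]
    refine Finset.sum_congr rfl fun i _ => ?_
    exact Nat.sub_add_cancel (Nat.choose_le_choose 2 (by have := hwu i; omega))
  have h3 := sum_append (k := k) (fun x => (x + 1).choose 2) w 0
  have h4 : 2 * ∑ i, (u i + 1).choose 2 = ∑ i, u i * (u i + 1) := by
    rw [Finset.mul_sum]
    exact Finset.sum_congr rfl fun i _ => by rw [two_ch, mul_comm]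
  have h5 : 2 * ∑ i, (w i + 1).choose 2 = ∑ i, w i * (w i + 1) := by
    rw [Finset.mul_sum]
    exact Finset.sum_congr rfl fun i _ => by rw [two_ch, mul_comm]
  have h6 : (0 + 1).choose 2 = 0 := rfl
  rw [h6, mul_zero, add_zero] at h3
  omega

end Pool.Agent.V5helper95.UB
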